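import Pool.Agent.T9h98.NK.SpecS

/-! Project NK, STEP: assembly (helper98) -/

set_option autoImplicit false

open Set
open scoped RealInnerProductSpace

namespace Pool.Agent.T9h98.NK

open Pool.Agent.T9h98.DC Pool.Agent.T9h44.NK

theorem two_of_ncard {α : Type*} {s : Set α} (h : 2 ≤ s.ncard) : ∃ a ∈ s, ∃ b ∈ s, a ≠ b := by
  have hf : s.Finite := Set.finite_of_ncard_pos (by omega)
  obtain ⟨a, b, ha, hb, hab⟩ := (Set.one_lt_ncard_iff hf).1 (by omega)
  exact ⟨a, ha, b, hb, hab⟩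

theorem step (hF : S_FACES) (hConn : S_CONN) (hLS : S_LOCS) (hLX : S_LOCX) (hLC : S_LOCC)
    (hMS : S_MS) (hC1 : S_C1) (hC2 : S_C2) (hW : S_WALK) (hSim : S_SIM) (hCro : S_CRO)
    (hCub : S_CUB) : S_STEP := by
  intro D P H hD hP hH hv
  obtain ⟨-, -, -, -, f5, -, -, -, f9, -⟩ := hF (D + 1) P hP.1
  have hsym : ∀ v w, Adj P v w → Vx P v ∧ Vx P w ∧ Adj P w v := fun v w h =>
    ⟨(f9 v w h).1, (f9 v w h).2.1, (f9 v w h).2.2.1⟩
  have hne : P.Nonempty := hP.2.mono interior_subset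
  obtain ⟨v₀, hv₀⟩ := (f5 hne).2
  have loc : ∀ v, Vx P v →
      ((∃ g e, LocS P v g e) ∧ ∀ w w', Adj P v w → Adj P v w' → ∃ h ∈ H, h w = w') ∨
      ((∃ g e, LocX P v g e) ∧ ∀ w w', Adj P v w → Adj P v w' → ∃ h ∈ H, h w = w') ∨
      ∃ g, LocC P v g := by
    intro v hvx
    obtain ⟨n, ι, hyp⟩ := hv v hvx
    rcases hyp.2.2.2.2.1 with h | h | h
    · exact Or.inl (hLS D P H v n ι (by omega) hP hH hvx hyp h)
    · exact Or.inr (Or.inl (hLX D P H v n ι (by omega) hP hH hvx hyp h))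
    · exact Or.inr (Or.inr (hLC D P H v n ι (by omega) hP hH hvx hyp h))
  -- no vertex of type C
  have noC : ∀ v, Vx P v → ∀ g, ¬ LocC P v g := by
    intro v hvx g hg
    refine hC2 D P (by omega) hP ⟨v, hvx⟩ fun w hw => ?_
    refine hConn D P hP {v | ∃ g, LocC P v g} ⟨v, ⟨g, hg⟩, hvx⟩ ?_ w hw
    rintro a ⟨ga, hga⟩ b ha hab
    obtain ⟨-, hb, hba⟩ := hsym a b hab
    rcases loc b hb with ⟨⟨g', e', h⟩, -⟩ | ⟨⟨g', e', h⟩, -⟩ | h
    · exact absurd h (hC1 D P (by omega) hP a b hab ga g' e' hga)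
    · exact absurd hga ((hMS D P (by omega) hP b a hba g' e' ga 0).2.2.2 h)
    · exact h
  have loc2 : ∀ v, Vx P v → ((∃ g e, LocS P v g e) ∨ ∃ g e, LocX P v g e) ∧
      ∀ w w', Adj P v w → Adj P v w' → ∃ h ∈ H, h w = w' := by
    intro v hvx
    rcases loc v hvx with ⟨h1, h2⟩ | ⟨h1, h2⟩ | ⟨g, h1⟩
    · exact ⟨Or.inl h1, h2⟩
    · exact ⟨Or.inr h1, h2⟩
    · exact absurd h1 (noC v hvx g)
  refine ⟨?_, fun v w w' h1 h2 => (loc2 v (hsym v w h1).1).2 w w' h1 h2⟩
  rcases (loc2 v₀ hv₀).1 with ⟨g, e, h₀⟩ | ⟨g, e, h₀⟩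
  · -- all vertices of type S
    have hall : ∀ v, Vx P v → LocS P v g e := by
      refine hConn D P hP {v | LocS P v g e} ⟨v₀, h₀, hv₀⟩ ?_
      intro a ha b hax hab
      obtain ⟨-, hb, hba⟩ := hsym a b hab
      rcases (loc2 b hb).1 with ⟨g', e', h⟩ | ⟨g', e', h⟩
      · obtain ⟨h1, h2⟩ := (hMS D P (by omega) hP a b hab g e g' e').1 ha h
        rw [Set.mem_ofPred_eq, h1, h2]
        exact h
      · exact absurd ha ((hMS D P (by omega) hP b a hba g' e' g e).2.2.1 h)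
    have huni : Uni P g e := by
      refine ⟨h₀.epos, h₀.glt, fun v y h => (hall v (hsym v y h).1).len y h, ?_⟩
      rintro v y y' ⟨h1, h2, h3, -⟩
      exact ((hall v (hsym v y h1).1).cor y y' h1 h2 h3).2
    obtain ⟨y, hy, y', hy', hyy⟩ := two_of_ncard
      (show 2 ≤ {y | Adj P v₀ y}.ncard by rw [h₀.num]; omega)
    have hcor := (h₀.cor y y' hy hy' hyy).1
    have hg9 : -1 / 9 < g := by
      refine lt_of_le_of_lt ?_ h₀.ggt
      have : (9 : ℝ) ≤ D := by exact_mod_cast hD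
      rw [neg_div, neg_div, neg_le_neg_iff]
      exact one_div_le_one_div_of_le (by norm_num) this
    rcases hW D P g e hP hg9 huni ⟨v₀, y, y', hcor⟩ with h | h
    · rw [h] at hall
      exact Or.inl (hSim D P e (by omega) hP hall)
    · rw [h] at hall
      exact Or.inr (Or.inr (hCub D P e (by omega) hP hall))
  · -- all vertices of type X
    have hall : ∀ v, Vx P v → LocX P v g e := by
      refine hConn D P hP {v | LocX P v g e} ⟨v₀, h₀, hv₀⟩ ?_
      intro a ha b hax hab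
      obtain ⟨-, hb, hba⟩ := hsym a b hab
      rcases (loc2 b hb).1 with ⟨g', e', h⟩ | ⟨g', e', h⟩
      · exact absurd h ((hMS D P (by omega) hP a b hab g e g' e').2.2.1 ha)
      · obtain ⟨h1, h2⟩ := (hMS D P (by omega) hP a b hab g e g' e').2.1 ha h
        rw [Set.mem_ofPred_eq, h1, h2]
        exact h
    have huni : Uni P g e := by
      refine ⟨h₀.epos, h₀.glt, fun v y h => (hall v (hsym v y h).1).len y h, ?_⟩
      rintro v y y' hc
      obtain ⟨h1, h2, h3, h4⟩ := hc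
      obtain ⟨s, hs⟩ := (hall v (hsym v y h1).1).opp
      obtain ⟨-, -, -, h5, h6⟩ := hs y h1
      by_cases h7 : y' = v + s - (y - v)
      · exact absurd ⟨h1, by rw [← h7]; exact h2, by rw [← h7]; exact h3, by rw [← h7]; exact h4⟩ h5
      · exact (h6 y' h2 h3.symm h7).2
    obtain ⟨y, hy, y', hy', hyy⟩ := two_of_ncard
      (show 2 ≤ {y | Adj P v₀ y}.ncard by rw [h₀.num]; omega)
    have hcor : ∃ v w y, Cor P v w y := by
      obtain ⟨s, hs⟩ := h₀.opp
      have hf : {y | Adj P v₀ y}.Finite := Set.finite_of_ncard_pos (by rw [h₀.num]; omega)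
      obtain ⟨z, hz1, hz2⟩ : ∃ z ∈ {y | Adj P v₀ y}, z ∉ ({y, v₀ + s - (y - v₀)} : Set _) := by
        by_contra hcon
        push Not at hcon
        have h1 := Set.ncard_le_ncard (fun z hz => hcon z hz : {y | Adj P v₀ y} ⊆ _)
          (Set.toFinite _)
        have h2 := Set.ncard_insert_le y ({v₀ + s - (y - v₀)} : Set (E (D + 1)))
        rw [Set.ncard_singleton] at h2
        rw [h₀.num] at h1
        omega
      simp only [mem_insert_iff, mem_singleton_iff, not_or] at hz2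
      exact ⟨v₀, y, z, ((hs y hy).2.2.2.2 z hz1 hz2.1 hz2.2).1⟩
    have hg9 : -1 / 9 < g := by linarith [h₀.gpos]
    rcases hW D P g e hP hg9 huni hcor with h | h
    · rw [h] at hall
      exact Or.inr (Or.inl (hCro D P e (by omega) hP hall))
    · exact absurd h h₀.gpos.ne'

end Pool.Agent.T9h98.NK
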