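import Pool.Agent.T9h98.NK.SpecS

/-! Project NK, piece G3: vertices and edges of a cube (helper98) -/

set_option autoImplicit false

open Set
open scoped RealInnerProductSpace

namespace Pool.Agent.T9h98.NK

open Pool.Agent.T9h98.DC Pool.Agent.T9h44.NK

theorem eq_of_co {D : ℕ} (b : OrthonormalBasis (Fin D) ℝ (E D)) (c x y : E D)
    (h : ∀ i, ⟪x - c, b i⟫ = ⟪y - c, b i⟫) : x = y := by
  have : x - c = y - c := by
    apply b.repr.injective
    ext i
    rw [b.repr_apply_apply, b.repr_apply_apply, real_inner_comm, h i, real_inner_comm]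
  simpa using this

theorem co_single {D : ℕ} (b : OrthonormalBasis (Fin D) ℝ (E D)) (c x : E D) (t : ℝ) (i j : Fin D) :
    ⟪x + t • b i - c, b j⟫ = ⟪x - c, b j⟫ + if i = j then t else 0 := by
  rw [show x + t • b i - c = (x - c) + t • b i by abel, inner_add_left, real_inner_smul_left]
  rcases eq_or_ne i j with h | h
  · subst h
    simp
  · rw [if_neg h, b.orthonormal.2 h]
    simp

theorem co_line {D : ℕ} (b : OrthonormalBasis (Fin D) ℝ (E D)) (c x y : E D) (s t : ℝ)
    (hst : s + t = 1) (j : Fin D) :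
    ⟪s • x + t • y - c, b j⟫ = s * ⟪x - c, b j⟫ + t * ⟪y - c, b j⟫ := by
  have : s • x + t • y - c = s • (x - c) + t • (y - c) := by
    have hc : c = (s + t) • c := by rw [hst, one_smul]
    conv_lhs => rw [hc]
    rw [smul_sub, smul_sub, add_smul]
    abel
  rw [this, inner_add_left, real_inner_smul_left, real_inner_smul_left]

/-- the functional `∑_(i ∈ I) e_i ⟪·, b i⟫` exposes the points with the coordinates `e_i r`, `i ∈ I` -/
theorem face_cube {D : ℕ} (c : E D) (r : ℝ) (b : OrthonormalBasis (Fin D) ℝ (E D)) (hr : 0 < r)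
    (I : Finset (Fin D)) (x : E D) (hx : ∀ i, ⟪x - c, b i⟫ = r ∨ ⟪x - c, b i⟫ = -r) :
    IsFace {x | ∀ i, |⟪x - c, b i⟫| ≤ r}
      {y | (∀ i, |⟪y - c, b i⟫| ≤ r) ∧ ∀ i ∈ I, ⟪y - c, b i⟫ = ⟪x - c, b i⟫} := by
  have hxQ : ∀ i, |⟪x - c, b i⟫| ≤ r := by
    intro i
    rcases hx i with h | h <;> rw [h]
    · rw [abs_of_pos hr]
    · rw [abs_neg, abs_of_pos hr]
  set a : E D := ∑ i ∈ I, ⟪x - c, b i⟫ • b i with ha
  have hval : ∀ y, ⟪a, y⟫ = ⟪a, c⟫ + ∑ i ∈ I, ⟪x - c, b i⟫ * ⟪y - c, b i⟫ := by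
    intro y
    have h1 : ⟪a, y - c⟫ = ∑ i ∈ I, ⟪x - c, b i⟫ * ⟪y - c, b i⟫ := by
      rw [ha, sum_inner]
      refine Finset.sum_congr rfl fun i _ => ?_
      rw [real_inner_smul_left, real_inner_comm (y - c) (b i)]
    rw [← h1, inner_sub_right]
    ring
  have hle : ∀ y, (∀ i, |⟪y - c, b i⟫| ≤ r) → ∀ i, ⟪x - c, b i⟫ * ⟪y - c, b i⟫ ≤ r * r := by
    intro y hy i
    have h1 := abs_le.1 (hy i)
    rcases hx i with h | h <;> rw [h] <;> nlinarith
  have heq : ∀ i, ⟪x - c, b i⟫ * ⟪x - c, b i⟫ = r * r := by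
    intro i
    rcases hx i with h | h <;> rw [h] <;> ring
  refine ⟨⟨x, hxQ, fun _ _ => rfl⟩, fun _ => ⟨innerSL ℝ a, ?_⟩⟩
  ext y
  constructor
  · rintro ⟨h1, h2⟩
    refine ⟨h1, fun z hz => ?_⟩
    show ⟪a, z⟫ ≤ ⟪a, y⟫
    rw [hval z, hval y]
    have h3 : ∑ i ∈ I, ⟪x - c, b i⟫ * ⟪z - c, b i⟫ ≤ ∑ i ∈ I, ⟪x - c, b i⟫ * ⟪y - c, b i⟫ := by
      refine Finset.sum_le_sum fun i hi => ?_
      rw [h2 i hi, heq i]
      exact hle z hz i
    linarith
  · rintro ⟨h1, h2⟩
    refine ⟨h1, fun i hi => ?_⟩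
    have h3 : ⟪a, x⟫ ≤ ⟪a, y⟫ := h2 x hxQ
    rw [hval x, hval y] at h3
    have h4 : ∀ j ∈ I, ⟪x - c, b j⟫ * ⟪y - c, b j⟫ ≤ ⟪x - c, b j⟫ * ⟪x - c, b j⟫ := by
      intro j _
      rw [heq j]
      exact hle y h1 j
    have h5 : ∑ j ∈ I, ⟪x - c, b j⟫ * ⟪y - c, b j⟫ = ∑ j ∈ I, ⟪x - c, b j⟫ * ⟪x - c, b j⟫ :=
      le_antisymm (Finset.sum_le_sum h4) (by linarith)
    have h6 := (Finset.sum_eq_sum_iff_of_le h4).1 h5 i hi
    have h7 : ⟪x - c, b i⟫ ≠ 0 := by
      rcases hx i with h | h <;> rw [h]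
      · exact hr.ne'
      · exact (neg_neg_of_pos hr).ne
    exact mul_left_cancel₀ h7 h6

theorem g3 : S_G3 := by
  intro D Q c r b hr hQ
  subst hQ
  have hmemx : ∀ x : E D, (∀ i, ⟪x - c, b i⟫ = r ∨ ⟪x - c, b i⟫ = -r) → ∀ i, |⟪x - c, b i⟫| ≤ r := by
    intro x hx i
    rcases hx i with h | h <;> rw [h]
    · rw [abs_of_pos hr]
    · rw [abs_neg, abs_of_pos hr]
  -- a point of a face with a coordinate inside
  have move : ∀ (F : Set (E D)), IsFace {x | ∀ i, |⟪x - c, b i⟫| ≤ r} F → ∀ x ∈ F, ∀ i,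
      |⟪x - c, b i⟫| < r → ∃ t : ℝ, 0 < t ∧ x + t • b i ∈ F := by
    intro F hF x hx i hi
    obtain ⟨l, hl⟩ := hF.2 hF.1
    rw [hl] at hx
    obtain ⟨h1, h2⟩ := hx
    obtain ⟨h3, h4⟩ := abs_lt.1 hi
    set t : ℝ := min (r - ⟪x - c, b i⟫) (r + ⟪x - c, b i⟫) with ht
    have ht0 : 0 < t := lt_min (by linarith) (by linarith)
    have ht1 : t ≤ r - ⟪x - c, b i⟫ := min_le_left _ _
    have ht2 : t ≤ r + ⟪x - c, b i⟫ := min_le_right _ _
    have hin : ∀ u : ℝ, |u| ≤ t → x + u • b i ∈ {x | ∀ i, |⟪x - c, b i⟫| ≤ r} := by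
      intro u hu j
      rw [co_single]
      obtain ⟨hu1, hu2⟩ := abs_le.1 hu
      split_ifs with hij
      · subst hij
        rw [abs_le]
        constructor <;> linarith
      · rw [add_zero]
        exact h1 j
    have h5 := h2 _ (hin t (by rw [abs_of_pos ht0]))
    have h6 := h2 _ (hin (-t) (by rw [abs_neg, abs_of_pos ht0]))
    rw [map_add, map_smul, smul_eq_mul] at h5 h6
    have h7 : l (b i) = 0 := by
      nlinarith
    refine ⟨t, ht0, ?_⟩
    rw [hl]
    refine ⟨hin t (by rw [abs_of_pos ht0]), fun y hy => ?_⟩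
    rw [map_add, map_smul, h7, smul_zero, add_zero]
    exact h2 y hy
  have hvx : ∀ x, Vx {x | ∀ i, |⟪x - c, b i⟫| ≤ r} x ↔
      ∀ i, ⟪x - c, b i⟫ = r ∨ ⟪x - c, b i⟫ = -r := by
    intro x
    constructor
    · intro h i
      by_contra hcon
      rw [not_or] at hcon
      have hxm : x ∈ {x | ∀ i, |⟪x - c, b i⟫| ≤ r} := h.2.subset rfl
      have h1 : |⟪x - c, b i⟫| < r := by
        refine lt_of_le_of_ne (hxm i) fun h2 => ?_
        rcases (abs_eq hr.le).1 h2 with h3 | h3
        · exact hcon.1 h3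
        · exact hcon.2 h3
      obtain ⟨t, ht, h2⟩ := move {x} h x rfl i h1
      rw [mem_singleton_iff, add_eq_left, smul_eq_zero] at h2
      rcases h2 with h2 | h2
      · exact ht.ne' h2
      · exact b.orthonormal.ne_zero i h2
    · intro h
      have h1 := face_cube c r b hr Finset.univ x h
      have h2 : {y | (∀ i, |⟪y - c, b i⟫| ≤ r) ∧ ∀ i ∈ Finset.univ, ⟪y - c, b i⟫ = ⟪x - c, b i⟫} =
          {x} := by
        ext y
        constructor
        · rintro ⟨-, h3⟩
          exact eq_of_co b c y x fun i => h3 i (Finset.mem_univ i)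
        · rintro rfl
          exact ⟨hmemx _ h, fun _ _ => rfl⟩
      rw [h2] at h1
      exact h1
  refine ⟨hvx, fun x y hx hy => ?_⟩
  rw [hvx] at hx hy
  constructor
  · rintro ⟨hne, hF⟩
    have hex : ∃ i, ⟪y - c, b i⟫ ≠ ⟪x - c, b i⟫ := by
      by_contra hcon
      push Not at hcon
      exact hne (eq_of_co b c y x hcon).symm
    obtain ⟨i, hi⟩ := hex
    have hop : ∀ k, ⟪y - c, b k⟫ ≠ ⟪x - c, b k⟫ → ⟪y - c, b k⟫ = -⟪x - c, b k⟫ := by
      intro k hk
      rcases hx k with h1 | h1 <;> rcases hy k with h2 | h2 <;> rw [h1, h2] at hk ⊢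
      · exact absurd rfl hk
      · ring
      · exact absurd rfl hk
    refine ⟨i, hop i hi, fun j hj => ?_⟩
    by_contra hcon
    have hm : (1 / 2 : ℝ) • x + (1 / 2 : ℝ) • y ∈ segment ℝ x y :=
      ⟨1 / 2, 1 / 2, by norm_num, by norm_num, by norm_num, rfl⟩
    have hmi : ⟪(1 / 2 : ℝ) • x + (1 / 2 : ℝ) • y - c, b i⟫ = 0 := by
      rw [co_line b c x y _ _ (by norm_num), hop i hi]
      ring
    have hmj : ⟪(1 / 2 : ℝ) • x + (1 / 2 : ℝ) • y - c, b j⟫ = 0 := by
      rw [co_line b c x y _ _ (by norm_num), hop j hcon]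
      ring
    obtain ⟨t, ht, h3⟩ := move _ hF _ hm i (by rw [hmi, abs_zero]; exact hr)
    obtain ⟨s, u, hs, hu, hsu, h4⟩ := h3
    have h5 := congrArg (fun z => ⟪z - c, b j⟫) h4
    have h6 := congrArg (fun z => ⟪z - c, b i⟫) h4
    rw [co_line b c x y s u hsu, co_single, if_neg (Ne.symm hj), hmj, hop j hcon] at h5
    rw [co_line b c x y s u hsu, co_single, if_pos rfl, hmi, hop i hi] at h6
    have hxj : ⟪x - c, b j⟫ ≠ 0 := by
      rcases hx j with h | h <;> rw [h]
      · exact hr.ne'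
      · exact (neg_neg_of_pos hr).ne
    have h7 : s = u := by
      have : (s - u) * ⟪x - c, b j⟫ = 0 := by linarith
      rcases mul_eq_zero.1 this with h | h
      · linarith
      · exact absurd h hxj
    rw [h7] at h6
    have : t = 0 := by linarith
    exact ht.ne' this
  · rintro ⟨i, h1, h2⟩
    have hxi : ⟪x - c, b i⟫ ≠ 0 := by
      rcases hx i with h | h <;> rw [h]
      · exact hr.ne'
      · exact (neg_neg_of_pos hr).ne
    refine ⟨?_, ?_⟩
    · rintro rfl
      apply hxi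
      linarith
    · have h3 := face_cube c r b hr (Finset.univ.erase i) x hx
      have h4 : {z | (∀ i, |⟪z - c, b i⟫| ≤ r) ∧
          ∀ j ∈ Finset.univ.erase i, ⟪z - c, b j⟫ = ⟪x - c, b j⟫} = segment ℝ x y := by
        ext z
        constructor
        · rintro ⟨h5, h6⟩
          set u : ℝ := (⟪x - c, b i⟫ - ⟪z - c, b i⟫) / (2 * ⟪x - c, b i⟫) with hu
          have h7 : u * (2 * ⟪x - c, b i⟫) = ⟪x - c, b i⟫ - ⟪z - c, b i⟫ :=
            div_mul_cancel₀ _ (mul_ne_zero two_ne_zero hxi)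
          obtain ⟨h8, h9⟩ := abs_le.1 (h5 i)
          have hu0 : 0 ≤ u ∧ u ≤ 1 := by
            rcases hx i with h | h <;> rw [h] at h7
            · constructor
              · by_contra hc
                push Not at hc
                nlinarith
              · by_contra hc
                push Not at hc
                nlinarith
            · constructor
              · by_contra hc
                push Not at hc
                nlinarith
              · by_contra hc
                push Not at hc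
                nlinarith
          refine ⟨1 - u, u, by linarith [hu0.2], hu0.1, by ring, ?_⟩
          refine eq_of_co b c _ z fun j => ?_
          rw [co_line b c x y (1 - u) u (by ring)]
          by_cases hj : j = i
          · subst hj
            rw [h1]
            linarith
          · rw [h2 j hj, h6 j (Finset.mem_erase.2 ⟨hj, Finset.mem_univ _⟩)]
            ring
        · rintro ⟨s, u, hs, hu, hsu, rfl⟩
          refine ⟨fun j => ?_, fun j hj => ?_⟩
          · rw [co_line b c x y s u hsu]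
            have h5 := hmemx x hx j
            have h6 := hmemx y hy j
            rw [abs_le] at h5 h6 ⊢
            constructor <;> nlinarith
          · rw [co_line b c x y s u hsu, h2 j (Finset.ne_of_mem_erase hj), ← add_mul, hsu, one_mul]
      rw [h4] at h3
      exact h3

end Pool.Agent.T9h98.NK
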