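import Pool.Agent.T9h98.NK.StepAd
import Pool.Agent.T9h98.NK.G3
import Pool.Agent.T9h10.NK.G1
import Pool.Agent.T9h12.NK.Cub
import Pool.Agent.T9h22.NK.MC
import Pool.Agent.T9h26.NK.CenC
import Pool.Agent.T9h36.NK.Rel
import Pool.Agent.T9h40.NK.G2
import Pool.Agent.T9h41.NK.Edge
import Pool.Agent.T9h41.NK.Plane
import Pool.Agent.T9h89.NK.C1
import Pool.Agent.T9h91.NK.C2
import Pool.Agent.T9h93.NK.Sim
import Pool.Agent.T9h61.NK.Locs
import Pool.Agent.T9h73.NK.Walk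
import Pool.Agent.T9h96.NK.Cens
import Pool.Agent.T9h75.NK.CenX
import Pool.Agent.T9h83.NK.Locx
import Pool.Agent.T9h18.NK.Locc
import Pool.Agent.T9h71.NK.Ms
import Pool.Agent.T9h31.NK.Cro

/-! Project NK, STEP: all pieces (helper98) -/

set_option autoImplicit false

namespace Pool.Agent.T9h98.NK

open Pool.Agent.T9h98.DC Pool.Agent.T9h44.NK

theorem step_all (hF : S_FACES) (hVF : S_VF) (hTR : S_TR) (hNB : S_NB) (hTWO : S_TWO)
    (hCONE : S_CONE) (hCONN : S_CONN) : S_STEP := by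
  have hEdge : S_EDGE := Pool.Agent.T9h41.NK.edge hF hTWO
  have hPlane : S_PLANE := Pool.Agent.T9h41.NK.plane hF hTWO
  have hG1 : S_G1 := Pool.Agent.T9h10.NK.g1
  have hG2 : S_G2 := Pool.Agent.T9h40.NK.g2
  have hG3 : S_G3 := g3
  have hRel : S_REL := Pool.Agent.T9h36.NK.rel hEdge
  have hMC : S_MC := Pool.Agent.T9h22.NK.mc hEdge
  have hMS : S_MS := Pool.Agent.T9h71.NK.ms hEdge
  have hCS : S_CENS := Pool.Agent.T9h96.NK.cens hF hVF hTR hG1
  have hCX : S_CENX := Pool.Agent.T9h75.NK.cenX hF hVF hTR hG2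
  have hCC : S_CENC := Pool.Agent.T9h26.NK.cenC hTR hG3
  have hLS : S_LOCS := Pool.Agent.T9h61.NK.locs hNB hCS hG1
  have hLX : S_LOCX := Pool.Agent.T9h83.NK.locx hF hNB hCX hG2
  have hLC : S_LOCC := Pool.Agent.T9h18.NK.locc hNB hCC hG3
  have hC1 : S_C1 := Pool.Agent.T9h89.NK.c1 hEdge hMC
  have hC2 : S_C2 := Pool.Agent.T9h91.NK.c2 hF hCONE hEdge hMC
  have hW : S_WALK := Pool.Agent.T9h73.NK.walk hRel hPlane
  have hSim : S_SIM := Pool.Agent.T9h93.NK.sim hF hRel hCONN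
  have hCro : S_CRO := Pool.Agent.T9h31.NK.cro hF hCONN hRel
  have hCub : S_CUB := Pool.Agent.T9h12.NK.cub hF hCONN hRel
  exact step hF hCONN hLS hLX hLC hMS hC1 hC2 hW hSim hCro hCub

end Pool.Agent.T9h98.NK
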