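import Pool.Agent.T9h44.NK.SpecA

/-!
# Project NK, STEP (helper98): all vertex figures are regular, so the polytope is regular

`P` is a polytope in `E (D + 1)`, `D ≥ 9`. Types of a vertex `v` (`g` = cosine of the angle of two edges at `v` in a
common 2-face): `LocS` (figure = simplex, centre 0, all edges at `v` have the length `e`), `LocX` (cross-polytope),
`LocC` (cube). Every `S_...` is one piece; the pieces of SpecA may be used as hypotheses (`S_TWO →` etc.).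
-/

set_option autoImplicit false

open Set
open scoped RealInnerProductSpace

namespace Pool.Agent.T9h98.NK

open Pool.Agent.T9h98.DC Pool.Agent.T9h44.NK

/-- regular, and the neighbours of every vertex are equivalent under `H` -/
def Good {d : ℕ} (P : Set (E d)) (H : Subgroup (E d ≃ₗᵢ[ℝ] E d)) : Prop :=
  Reg P ∧ ∀ v w w', Adj P v w → Adj P v w' → ∃ h ∈ H, h w = w'

/-- `w, y` are the two neighbours of `v` in a 2-face -/
def Cor {d : ℕ} (P : Set (E d)) (v w y : E d) : Prop :=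
  Adj P v w ∧ Adj P v y ∧ w ≠ y ∧ ∃ T, IsFace P T ∧ dm T = 2 ∧ v ∈ T ∧ w ∈ T ∧ y ∈ T

/-- the type S -/
structure LocS {D : ℕ} (P : Set (E (D + 1))) (v : E (D + 1)) (g e : ℝ) : Prop where
  epos : 0 < e
  glt : g < 1
  ggt : -1 / (D : ℝ) < g
  len : ∀ y, Adj P v y → ‖y - v‖ = e
  cor : ∀ y y', Adj P v y → Adj P v y' → y ≠ y' → Cor P v y y' ∧ ⟪y - v, y' - v⟫ = g * e ^ 2
  num : {y | Adj P v y}.ncard = D + 1

/-- the type X; the neighbour opposite to `y` is `v + s - (y - v)` -/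
structure LocX {D : ℕ} (P : Set (E (D + 1))) (v : E (D + 1)) (g e : ℝ) : Prop where
  epos : 0 < e
  glt : g < 1
  gpos : 0 < g
  len : ∀ y, Adj P v y → ‖y - v‖ = e
  opp : ∃ s : E (D + 1), ∀ y, Adj P v y → Adj P v (v + s - (y - v)) ∧ v + s - (y - v) ≠ y ∧
    ⟪y - v, s - (y - v)⟫ = (2 * g - 1) * e ^ 2 ∧ ¬ Cor P v y (v + s - (y - v)) ∧
    ∀ y', Adj P v y' → y' ≠ y → y' ≠ v + s - (y - v) → Cor P v y y' ∧ ⟪y - v, y' - v⟫ = g * e ^ 2
  num : {y | Adj P v y}.ncard = 2 * D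

/-- the type C -/
structure LocC {D : ℕ} (P : Set (E (D + 1))) (v : E (D + 1)) (g : ℝ) : Prop where
  glt : g < 1
  ggt : 1 - 2 / (D : ℝ) < g
  cor : ∀ y y', Cor P v y y' → ⟪y - v, y' - v⟫ = g * (‖y - v‖ * ‖y' - v‖)
  cor2 : ∀ y y' y'', Cor P v y y' → Cor P v y y'' → y' ≠ y'' →
    ⟪y' - v, y'' - v⟫ = (2 * g - 1) * (‖y' - v‖ * ‖y'' - v‖)
  two : ∀ y, Adj P v y → ∃ y' y'', y' ≠ y'' ∧ Cor P v y y' ∧ Cor P v y y''

/-- the hypothesis at a vertex -/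
def Hyp {D : ℕ} (P : Set (E (D + 1))) (H : Subgroup (E (D + 1) ≃ₗᵢ[ℝ] E (D + 1)))
    (v n : E (D + 1)) (ι : E D →ₗᵢ[ℝ] E (D + 1)) : Prop :=
  Sup P v n ∧ n ≠ 0 ∧ Ort n ι ∧ (∀ h ∈ H, h v = v → h n = n) ∧ Good (fig v n ι P) (figH H v ι)

/-- **CENS** (uses `S_FACES`, `S_VF`, `S_TR`, `S_G1`). The figure is a regular simplex: its centre is 0, `figH` is
transitive on its vertices. Proof. Any two vertices of the figure `Q` have a common neighbour (`D ≥ 3`), so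
`Good` gives the transitivity. The centroid `z` of the `u i` is fixed by `figH` (linear, permutes the vertices);
`⟪x, z⟫` is the same for all vertices `x`, so constant on `Q`, which has interior points: `z = 0`. -/
def S_CENS : Prop := ∀ (D : ℕ) (P : Set (E (D + 1))) (H : Subgroup (E (D + 1) ≃ₗᵢ[ℝ] E (D + 1)))
    (v n : E (D + 1)) (ι : E D →ₗᵢ[ℝ] E (D + 1)), 3 ≤ D → IsPolytope P → Pres H P → Vx P v →
  Hyp P H v n ι → ∀ (u : Fin (D + 1) → E D) (s : ℝ), 0 < s → (∀ i j, i ≠ j → dist (u i) (u j) = s) →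
    fig v n ι P = convexHull ℝ (range u) →
      ∑ i, u i = 0 ∧
        ∀ x x', Vx (fig v n ι P) x → Vx (fig v n ι P) x' → ∃ k ∈ figH H v ι, k x = x'

/-- **CENX** (uses `S_FACES`, `S_VF`, `S_TR`, `S_G2`). The same for the cross-polytope; the centroid of the vertices is
`c`, so `c = 0`. Two vertices have a common neighbour, as `D ≥ 3`. -/
def S_CENX : Prop := ∀ (D : ℕ) (P : Set (E (D + 1))) (H : Subgroup (E (D + 1) ≃ₗᵢ[ℝ] E (D + 1)))
    (v n : E (D + 1)) (ι : E D →ₗᵢ[ℝ] E (D + 1)), 3 ≤ D → IsPolytope P → Pres H P → Vx P v →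
  Hyp P H v n ι → ∀ (c : E D) (r : ℝ) (b : OrthonormalBasis (Fin D) ℝ (E D)), 0 < r →
    fig v n ι P = convexHull ℝ {x | ∃ i, x = c + r • b i ∨ x = c - r • b i} →
      c = 0 ∧
        ∀ x x', Vx (fig v n ι P) x → Vx (fig v n ι P) x' → ∃ k ∈ figH H v ι, k x = x'

/-- **CENC** (uses `S_FACES`, `S_VF`, `S_TR`, `S_G3`). The centroid of the vertices `c + r ∑ ± b_i` is `c`, it is fixed by
`figH`; for two neighbours `x, x'` of a vertex `⟪x, c⟫ = ⟪x', c⟫` (`Good`); `x - x'` runs over all `± 2 r b_i ± 2 r b_j`,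
`i ≠ j`; so `c = 0`. -/
def S_CENC : Prop := ∀ (D : ℕ) (P : Set (E (D + 1))) (H : Subgroup (E (D + 1) ≃ₗᵢ[ℝ] E (D + 1)))
    (v n : E (D + 1)) (ι : E D →ₗᵢ[ℝ] E (D + 1)), 3 ≤ D → IsPolytope P → Pres H P → Vx P v →
  Hyp P H v n ι → ∀ (c : E D) (r : ℝ) (b : OrthonormalBasis (Fin D) ℝ (E D)), 0 < r →
    fig v n ι P = {x | ∀ i, |⟪x - c, b i⟫| ≤ r} → c = 0

/-- **G1** vertices and edges of a regular simplex; `⟪u i, u j⟫ = - ρ / D` if the centroid is 0 (`∑_j ⟪u i, u j⟫ = 0`). -/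
def S_G1 : Prop := ∀ (D : ℕ) (Q : Set (E D)) (u : Fin (D + 1) → E D) (s : ℝ), 1 ≤ D → 0 < s →
  (∀ i j, i ≠ j → dist (u i) (u j) = s) → Q = convexHull ℝ (range u) →
    (∀ x, Vx Q x ↔ x ∈ range u) ∧ Function.Injective u ∧ (∀ i j, i ≠ j → Adj Q (u i) (u j)) ∧
      (∑ i, u i = 0 → ∃ ρ : ℝ, 0 < ρ ∧ (∀ i, ⟪u i, u i⟫ = ρ) ∧ ∀ i j, i ≠ j → ⟪u i, u j⟫ = -ρ / D)

/-- **G2** vertices and edges of a cross-polytope. -/
def S_G2 : Prop := ∀ (D : ℕ) (Q : Set (E D)) (c : E D) (r : ℝ)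
    (b : OrthonormalBasis (Fin D) ℝ (E D)), 0 < r →
  Q = convexHull ℝ {x | ∃ i, x = c + r • b i ∨ x = c - r • b i} →
    (∀ x, Vx Q x ↔ ∃ i, x = c + r • b i ∨ x = c - r • b i) ∧
    ∀ x y, Vx Q x → Vx Q y → (Adj Q x y ↔ (x ≠ y ∧ (y - c ≠ -(x - c) ∨ D = 1)))

/-- **G3** vertices and edges of a cube. -/
def S_G3 : Prop := ∀ (D : ℕ) (Q : Set (E D)) (c : E D) (r : ℝ)
    (b : OrthonormalBasis (Fin D) ℝ (E D)), 0 < r →
  Q = {x | ∀ i, |⟪x - c, b i⟫| ≤ r} →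
    (∀ x, Vx Q x ↔ ∀ i, ⟪x - c, b i⟫ = r ∨ ⟪x - c, b i⟫ = -r) ∧
    ∀ x y, Vx Q x → Vx Q y → (Adj Q x y ↔
      ∃ i, ⟪y - c, b i⟫ = -⟪x - c, b i⟫ ∧ ∀ j, j ≠ i → ⟪y - c, b j⟫ = ⟪x - c, b j⟫)

/-- **LOCS** (uses `S_NB`, `S_CENS`, `S_G1` and others of SpecA). With `y - v = t_y (n + ι x_y)`:
`⟪n + ι x, n + ι x'⟫ = ‖n‖² + ⟪x, x'⟫`; corners at `v` = edges of the figure (`S_NB`). All `‖y - v‖` are equal (an
`h ∈ H` with `h v = v`, `h y = y'`), hence all `t_y`. `g = (‖n‖² - ρ/D) / (‖n‖² + ρ)`. -/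
def S_LOCS : Prop := ∀ (D : ℕ) (P : Set (E (D + 1))) (H : Subgroup (E (D + 1) ≃ₗᵢ[ℝ] E (D + 1)))
    (v n : E (D + 1)) (ι : E D →ₗᵢ[ℝ] E (D + 1)), 3 ≤ D → IsPolytope P → Pres H P → Vx P v →
  Hyp P H v n ι → RegS (fig v n ι P) →
    (∃ g e, LocS P v g e) ∧ ∀ w w', Adj P v w → Adj P v w' → ∃ h ∈ H, h w = w'

/-- **LOCX** (uses `S_NB`, `S_CENX`, `S_G2` and others of SpecA). The same; `g = ‖n‖² / (‖n‖² + r²)`, `s = 2 t n`. -/
def S_LOCX : Prop := ∀ (D : ℕ) (P : Set (E (D + 1))) (H : Subgroup (E (D + 1) ≃ₗᵢ[ℝ] E (D + 1)))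
    (v n : E (D + 1)) (ι : E D →ₗᵢ[ℝ] E (D + 1)), 3 ≤ D → IsPolytope P → Pres H P → Vx P v →
  Hyp P H v n ι → RegO (fig v n ι P) →
    (∃ g e, LocX P v g e) ∧ ∀ w w', Adj P v w → Adj P v w' → ∃ h ∈ H, h w = w'

/-- **LOCC** (uses `S_NB`, `S_CENC`, `S_G3` and others of SpecA). `g = 1 - 2 r² / (‖n‖² + D r²)`; two different
neighbours of a vertex of the cube differ in two signs: `1 - 4 r² / (‖n‖² + D r²) = 2 g - 1`. -/
def S_LOCC : Prop := ∀ (D : ℕ) (P : Set (E (D + 1))) (H : Subgroup (E (D + 1) ≃ₗᵢ[ℝ] E (D + 1)))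
    (v n : E (D + 1)) (ι : E D →ₗᵢ[ℝ] E (D + 1)), 3 ≤ D → IsPolytope P → Pres H P → Vx P v →
  Hyp P H v n ι → RegC (fig v n ι P) → ∃ g, LocC P v g

/-- **PLANE** (uses `S_FACES`, `S_TWO`). The points of `P` in the plane of a corner are in its cone (`P ∩` the
plane of a 2-face `T` is `T`: the functional of `T` is constant on the plane; then `S_TWO`). -/
def S_PLANE : Prop := ∀ (D : ℕ) (P : Set (E (D + 1))), IsPolytope P → ∀ v w y, Cor P v w y →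
  LinearIndependent ℝ ![w - v, y - v] ∧
    ∀ u ∈ P, ∀ a b : ℝ, u - v = a • (w - v) + b • (y - v) → 0 ≤ a ∧ 0 ≤ b

/-- **EDGE** (uses `S_FACES`, `S_TWO`, `S_PLANE`). The other end of an edge of a 2-face `T ∋ v, w, y`: `z` = the other neighbour of
`w` in `T`; `z` is in the cone of `T` at `v`; not on the line `v w` (last clauses of `S_TWO`), so `β > 0`. The last
clause: `P ∩` the plane of `T` is `T`. -/
def S_EDGE : Prop := ∀ (D : ℕ) (P : Set (E (D + 1))), IsPolytope P → ∀ v w y, Cor P v w y →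
  ∃ z, Cor P w v z ∧ (∃ α β : ℝ, 0 ≤ α ∧ 0 < β ∧ z - v = α • (w - v) + β • (y - v)) ∧
    ∀ u, Cor P w z u → (∃ a b : ℝ, u - v = a • (w - v) + b • (y - v)) → u = v

/-- **MS** (uses `S_EDGE`). Adjacent vertices of type S, X: same type, `g`, `e`. Proof. Let `p = w - v`, `y ≠ y'` with
`Cor P v w y`, `Cor P v w y'`, `z, z'` by `S_EDGE`; the components orthogonal to `p` of `z - w`, `z' - w` are positive
multiples of those of `y - v`, `y' - v`. Normed, their inner product is (type S, and type X if not opposite)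
`g / (1 + g)`, and `-(1-g)/(1+g)` (type X, opposite), computed at `v` or at `w` (it is not 1, so `z ≠ z'`). X has positive
and negative values (`D ≥ 3`), S only one value. -/
def S_MS : Prop := ∀ (D : ℕ) (P : Set (E (D + 1))), 3 ≤ D → IsPolytope P → ∀ v w, Adj P v w →
  ∀ g e g' e' : ℝ,
    (LocS P v g e → LocS P w g' e' → g = g' ∧ e = e') ∧
    (LocX P v g e → LocX P w g' e' → g = g' ∧ e = e') ∧
    (LocX P v g e → ¬ LocS P w g' e') ∧ (LocX P v g e → ¬ LocC P w g')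

/-- **MC** (uses `S_EDGE`). The same for type C, where the inner product is `-(1-g)/(1+g)` for all pairs. -/
def S_MC : Prop := ∀ (D : ℕ) (P : Set (E (D + 1))), 3 ≤ D → IsPolytope P → ∀ v w, Adj P v w →
  ∀ g e g' : ℝ, (LocC P v g → LocS P w g' e → g' = -(1 - g) / 2) ∧
    (LocC P v g → LocC P w g' → g = g')

/-- **C1** (uses `S_EDGE`, `S_MC`). `D ≥ 8`. A vertex `v` of type C has no neighbour `w` of type S. Proof. `p = w - v`,
`y` with `Cor P v w y`, `z` by `S_EDGE`, `z - v = α p + β (y - v)`, `α ≥ 0`; `‖z - w‖ = ‖p‖`, `⟪z - w, p⟫ = - g_w ‖p‖²`,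
`⟪y - v, p⟫ = g ‖y - v‖ ‖p‖`. With `q = β ‖y - v‖ / ‖p‖`: `α - 1 + q g = - g_w`, `q² (1 - g²) = 1 - g_w²`, so
`α = 1 - g_w - g q ≥ 0` gives `g² (1 - g_w²) ≤ (1 - g_w)² (1 - g²)`, with `g_w = -(1-g)/2`: `(4 g - 3)(g + 1) ≤ 0`, false
as `g > 1 - 2/D ≥ 3/4`. -/
def S_C1 : Prop := ∀ (D : ℕ) (P : Set (E (D + 1))), 8 ≤ D → IsPolytope P → ∀ v w, Adj P v w →
  ∀ g g' e : ℝ, LocC P v g → ¬ LocS P w g' e

/-- **C2** (uses `S_EDGE`, `S_MC`). `D ≥ 4`: not all vertices are of type C. Proof. Take `Cor P v w y` and `z` by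
`S_EDGE`; `‖z - w‖ = β ‖y - v‖` and `α ‖p‖ = ‖p‖ - 2 g β ‖y - v‖ ≥ 0` as both angles have the cosine `g`. So
`‖z - w‖ ≤ ‖v - w‖ / (2 g)`; the same for `Cor P z w ·` in the same 2-face: `‖v - w‖ ≤ ‖z - w‖ / (2 g)`, `4 g² ≤ 1`,
false (`S_EDGE` for the corner of `z` with `w`, `Cor P z w u`, obtained from `Cor P w z v` by `S_EDGE`). -/
def S_C2 : Prop := ∀ (D : ℕ) (P : Set (E (D + 1))), 4 ≤ D → IsPolytope P →
  (∃ v, Vx P v) → ¬ ∀ v, Vx P v → ∃ g, LocC P v g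

/-- constant edge length `e` and cosine `g` -/
def Uni {D : ℕ} (P : Set (E (D + 1))) (g e : ℝ) : Prop :=
  0 < e ∧ g < 1 ∧ (∀ v y, Adj P v y → ‖y - v‖ = e) ∧
    ∀ v y y', Cor P v y y' → ⟪y - v, y' - v⟫ = g * e ^ 2

/-- **REL** (uses `S_EDGE`). In the situation of `S_EDGE`: `z - v = α p + β q`, `p = w - v`, `q = y - v`,
`‖z - w‖ = e`, `⟪v - w, z - w⟫ = g e²` give `β = 1`, `α = 1 - 2 g`. -/
def S_REL : Prop := ∀ (D : ℕ) (P : Set (E (D + 1))) (g e : ℝ), -1 < g → IsPolytope P → Uni P g e →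
  ∀ v w y, Cor P v w y → Cor P w v (y + (1 - 2 * g) • (w - v)) ∧ 0 ≤ 1 - 2 * g

/-- **WALK** (uses `S_REL`, `S_PLANE`). Proof. Let `1 - 2 g > 0`. Start with `Cor P v w y` in the 2-face `T`, `p = w - v`,
`q = y - v`. The vertices of `T` in this order: `y, v, v_1 = w, v_2, v_3, v_4`, each next one by `S_REL` (for
`Cor P v_i v_(i-1) v_(i+1)` one gets, from the corner at `v_i` with `w := v_(i+1)`, `y := v_(i-1)`, the next one
`v_(i+2) = v_(i-1) + (1 - 2g)(v_(i+1) - v_i)`); they are all in `P` and in the plane of the first corner, so `S_PLANE` applies. `v_3 - v = (1-2g)(-2g p + q)`, so by the cone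
at `v` `g ≤ 0`; `v_4 - v = 2g (1 + 2g - 4g²) p + (4g² - 2g) q`, so `2g (1 + 2g - 4g²) ≥ 0`: `g = 0` as `g > -1/9`. -/
def S_WALK : Prop := ∀ (D : ℕ) (P : Set (E (D + 1))) (g e : ℝ), IsPolytope P → -1 / 9 < g →
  Uni P g e → (∃ v w y, Cor P v w y) → g = 1 / 2 ∨ g = 0

/-- **SIM** (uses `S_REL`, `S_CONN`). Proof. `A = {v} ∪ N(v)`; by `S_REL` `w ≠ w' ∈ N(v)` are adjacent; the number of
neighbours is `D + 1`, so `N(w) = A \ {w}`; `A` is closed. -/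
def S_SIM : Prop := ∀ (D : ℕ) (P : Set (E (D + 1))) (e : ℝ), 3 ≤ D → IsPolytope P →
  (∀ v, Vx P v → LocS P v (1 / 2) e) → RegS P

/-- **CRO** (uses `S_REL`, `S_CONN`). Proof. `v = 0` for short; `s` of `LocX` at `v`, `‖s‖² = 2 e²`;
`A = {0, s} ∪ N(0)`. `y, y' ∈ N(0)` not opposite are adjacent (`S_REL`, `g = 1/2`). At `y`: `y', s - y'` are
orthogonal seen from `y`, so opposite, so the `s` of `y` is `s - 2 y` and the neighbour opposite to `0` is `s`. So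
`N(y) = {0, s} ∪ N(0) \ {y, s - y}` (number `2 D`), `N(s) = N(0)`. Centre `s/2`, radius `e/√2`, basis from the pairs
`y, s - y` (`y - s/2` have norm `e/√2` and are orthogonal for pairs not opposite). -/
def S_CRO : Prop := ∀ (D : ℕ) (P : Set (E (D + 1))) (e : ℝ), 3 ≤ D → IsPolytope P →
  (∀ v, Vx P v → LocX P v (1 / 2) e) → RegO P

/-- **CUB** (uses `S_REL`, `S_CONN`). Proof. `N(v) = {v + e b_i}`, `b` orthonormal basis. Induction: `a_S = v + e ∑_(i ∈ S) b_i`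
is a vertex with the neighbours `a_S - e b_i` (`i ∈ S`), `a_S + e b_i` (`i ∉ S`): for `i ∉ S` the point `a_(S ∪ i)` has
the neighbours `a_S` and (by `S_REL`, `g = 0`) `a_S ± e b_j + e b_i`, `j ≠ i`, altogether `D + 1`. So `{a_S}` is closed. `P` = hull of
the `a_S` = cube with the centre `v + (e/2) ∑ b_i`, `r = e/2`. -/
def S_CUB : Prop := ∀ (D : ℕ) (P : Set (E (D + 1))) (e : ℝ), 3 ≤ D → IsPolytope P →
  (∀ v, Vx P v → LocS P v 0 e) → RegC P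

/-- **STEP** (assembly, helper98) -/
def S_STEP : Prop := ∀ (D : ℕ) (P : Set (E (D + 1))) (H : Subgroup (E (D + 1) ≃ₗᵢ[ℝ] E (D + 1))),
  9 ≤ D → IsPolytope P → Pres H P → (∀ v, Vx P v → ∃ n ι, Hyp P H v n ι) → Good P H

end Pool.Agent.T9h98.NK
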