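import Pool.Agent.T9h44.NK.All
import Pool.Agent.T9h98.NK.StepAll
import Pool.Agent.T9h56.NK.RSC
import Pool.Agent.T9h57.NK.L2
import Pool.Agent.T9h69.NK.Fto
import Pool.Agent.T9h46.NK.Ftc
import Pool.Agent.T9h19.NK.Stepl
import Pool.Agent.T9h48.NK.Qj2
import Pool.Agent.T9h95.NK.Ll2
import Pool.Agent.T9h95.NK.Ptm

/-! Project NK: all pieces (helper98, helper44) -/

set_option autoImplicit false

namespace Pool.Agent.T9h98.NK

open Pool.Agent.T9h98.DC Pool.Agent.T9h44.NK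

theorem fL2 : S_L2 := Pool.Agent.T9h57.NK.l2 fFaces fCone fM0
theorem fRsc : S_RSC := Pool.Agent.T9h56.NK.rsc fFaces fSimp
theorem fFto : S_FTO := Pool.Agent.T9h69.NK.fto fPerm
theorem fFtc : S_FTC := Pool.Agent.T9h46.NK.ftc fPermc
theorem fStepl : S_STEPL :=
  Pool.Agent.T9h19.NK.stepl fFaces fVF fIota fNb fTwo fM1 fM3 fL1 fSimp fSS
theorem fQj2 : S_QJ2 := Pool.Agent.T9h48.NK.qj2 fFaces fVF fInv fIota fSH fExt fCone fTR fM0 fM1 fRsc
  fStepl fSum0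
theorem fLL2 : S_LL2 := Pool.Agent.T9h95.NK.ll2 fFaces fIota fTR fVF fM1 fEcp fL1 fL2 fStepl fQj2 fScl
  fExt (Pool.Agent.T9h95.NK.ptm fFaces fVF fInv fIota fSH fExt)
theorem fStep : S_STEP := step_all fFaces fVF fTR fNb fTwo fCone fConn
theorem fMI : S_MI := mi fFaces fVF fInv fIota fTR fMono fLL2 (step' fStep)

/-- a `k`-orbit convex `d`-polytope with `k ≥ 2` has `d < 9 k + 3` -/
theorem bound9 (k d : ℕ) (hk : 2 ≤ k) (P : Set (E d)) (hP : IsKOrbit k P) : d < 9 * k + 3 :=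
  fin fTrans fOne fFts fFto fFtc fMI k d hk P hP

end Pool.Agent.T9h98.NK
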