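import Pool.Agent.T9h98.NK.Step
import Pool.Agent.T9h44.NK.Ind

/-! Project NK: STEP in the form of `T9h44/NK/Ind.lean` (helper98) -/

set_option autoImplicit false

open Set
open scoped RealInnerProductSpace

namespace Pool.Agent.T9h98.NK

open Pool.Agent.T9h98.DC Pool.Agent.T9h44.NK

theorem step' (h : S_STEP) : S_STEP' := by
  intro n hn P H hP hH hv
  refine h n P H hn hP hH fun v hvx => ?_
  obtain ⟨m, ι, h1, h2, h3, h4, h5⟩ := hv v hvx
  exact ⟨m, ι, h2, h1, h3, h4, h5⟩

end Pool.Agent.T9h98.NK
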